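import Pool.Agent.Lib.MP_e2ef7e_al.H6FullA
import Pool.Agent.Lib.MP_e2ef7e_al.SlabT
import Pool.Agent.Lib.MP_e2ef7e_al.Spec

/-!
The regularity conjecture: every antiunitary representation of a finite dimensional real Lie
group is regular with respect to every Euler element.
-/

open Topology
open scoped Manifold ContDiff

namespace Pool.Agent.Results.MP_e2ef7e_al.Regularity

open Pool.Agent.Lib.MP_e2ef7e_al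

theorem result {E : Type} [NormedAddCommGroup E] [NormedSpace ℝ E] [FiniteDimensional ℝ E]
    {G : Type} [Group G] [TopologicalSpace G] [T2Space G] [ChartedSpace E G]
    [LieGroup 𝓘(ℝ, E) ∞ G]
    (h : GroupLieAlgebra 𝓘(ℝ, E) G)
    (hh : ∀ X : GroupLieAlgebra 𝓘(ℝ, E) G, ∃ X₁ X₀ X₂ : GroupLieAlgebra 𝓘(ℝ, E) G,
      ⁅h, X₁⁆ = X₁ ∧ ⁅h, X₀⁆ = 0 ∧ ⁅h, X₂⁆ = -X₂ ∧ X = X₁ + X₀ + X₂)
    (γ : ℝ → G) (hγ0 : γ 0 = 1) (hγ : IsMIntegralCurve γ (mulInvariantVectorField h))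
    (τ : G →* G) (hτ : ContMDiff 𝓘(ℝ, E) 𝓘(ℝ, E) ∞ τ)
    (hτd : ∀ X₁ X₀ X₂ : GroupLieAlgebra 𝓘(ℝ, E) G, ⁅h, X₁⁆ = X₁ → ⁅h, X₀⁆ = 0 → ⁅h, X₂⁆ = -X₂ →
      mfderiv 𝓘(ℝ, E) 𝓘(ℝ, E) τ 1 (X₁ + X₀ + X₂) = (-X₁ + X₀ - X₂ : GroupLieAlgebra 𝓘(ℝ, E) G))
    {H : Type} [NormedAddCommGroup H] [InnerProductSpace ℂ H] [CompleteSpace H]
    (U : G →* (H ≃ₗᵢ[ℂ] H)) (hU : ∀ v, Continuous fun g => U g v)
    (J : H ≃ₗᵢ⋆[ℂ] H) (hJ : ∀ v, J (J v) = v) (hJU : ∀ g v, J (U g (J v)) = U (τ g) v) :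
    ∃ N ∈ 𝓝 (1 : G), IsCyclicSub (interN (fun g => U g) (modSub (fun t => U (γ t)) J) N) := by
  rw [modSub_eq]
  exact Gen.regular_of_slab h hh γ hγ0 hγ τ hτ hτd U hU J hJ hJU fun hL R => Gen.slab hL R

end Pool.Agent.Results.MP_e2ef7e_al.Regularity
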